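import Mathlib

/-!
MP_7c4268_al, Q1 (disproof): for `G` cyclic of order `8` there is a set `S` of `16` pairs such that
`F_S / ⟨R_S⟩` has an element of order `2`. The group `G` is written additively.
-/

set_option autoImplicit false

namespace Pool.Agent.Results.MP_7c4268_al.TorsionCyclicEight

open Finsupp

/-- `r(g,h,k) = {h,k} + {g,h+k} - {g,h} - {g+h,k}` as an element of the free abelian group on `S`,
for `g, h, k` such that all four pairs belong to `S`. -/
noncomputable def rel {G : Type} [AddCommGroup G] (S : Set (Sym2 G)) (g h k : G)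
    (h1 : s(h, k) ∈ S) (h2 : s(g, h + k) ∈ S) (h3 : s(g, h) ∈ S) (h4 : s(g + h, k) ∈ S) : S →₀ ℤ :=
  single ⟨s(h, k), h1⟩ 1 + single ⟨s(g, h + k), h2⟩ 1 - single ⟨s(g, h), h3⟩ 1
    - single ⟨s(g + h, k), h4⟩ 1

/-- `⟨R_S⟩`, the subgroup of the free abelian group on `S` generated by the surviving relations. -/
noncomputable def RS {G : Type} [AddCommGroup G] (S : Set (Sym2 G)) : AddSubgroup (S →₀ ℤ) :=
  AddSubgroup.closure {x | ∃ (g h k : G) (h1 : s(h, k) ∈ S) (h2 : s(g, h + k) ∈ S)
    (h3 : s(g, h) ∈ S) (h4 : s(g + h, k) ∈ S), x = rel S g h k h1 h2 h3 h4}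

/-- The set of 16 pairs. -/
def T : Finset (Sym2 (ZMod 8)) :=
  {s(0, 4), s(1, 2), s(1, 3), s(1, 4), s(1, 5), s(1, 6), s(1, 7), s(2, 2), s(2, 3), s(2, 6),
    s(3, 3), s(3, 4), s(4, 4), s(4, 6), s(5, 7), s(6, 6)}

/-- The function defining the homomorphism to `ℤ/2`. -/
def f (x : Sym2 (ZMod 8)) : ZMod 2 := if x ∈ ({s(0, 4), s(1, 4), s(2, 2)} : Finset _) then 1 else 0

theorem f_rel : ∀ g h k : ZMod 8, s(h, k) ∈ T → s(g, h + k) ∈ T → s(g, h) ∈ T → s(g + h, k) ∈ T →
    f s(h, k) + f s(g, h + k) - f s(g, h) - f s(g + h, k) = 0 := by decide +kernel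

/-- The homomorphism to `ℤ/2`. -/
noncomputable def F : ((T : Set (Sym2 (ZMod 8))) →₀ ℤ) →+ ZMod 2 :=
  Finsupp.liftAddHom fun x => (zmultiplesHom (ZMod 2)) (f x)

theorem F_single (x : (T : Set (Sym2 (ZMod 8)))) (n : ℤ) : F (single x n) = n • f x := by
  simp [F]

theorem F_RS {x : (T : Set (Sym2 (ZMod 8))) →₀ ℤ} (hx : x ∈ RS (T : Set (Sym2 (ZMod 8)))) :
    F x = 0 := by
  have h : RS (T : Set (Sym2 (ZMod 8))) ≤ F.ker := by
    rw [RS, AddSubgroup.closure_le]
    rintro _ ⟨g, h, k, h1, h2, h3, h4, rfl⟩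
    change F _ = 0
    rw [rel, map_sub, map_sub, map_add, F_single, F_single, F_single, F_single]
    simp only [one_smul]
    exact f_rel g h k h1 h2 h3 h4
  exact h hx

/-- `F_S` modulo `⟨R_S⟩`. -/
abbrev Q {G : Type} [AddCommGroup G] (S : Set (Sym2 G)) : Type := (S →₀ ℤ) ⧸ RS S

/-- a generator of `F_S` -/
noncomputable def e (x : Sym2 (ZMod 8)) (hx : x ∈ (T : Set (Sym2 (ZMod 8)))) :
    (T : Set (Sym2 (ZMod 8))) →₀ ℤ := single ⟨x, hx⟩ 1

theorem no_two_torsion (M : Type) [AddCommGroup M] [Module.Free ℤ M] (x : M) (h : 2 • x = 0) :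
    x = 0 := by
  have h2 : (2 : ℤ) • x = 0 := by
    rw [← h]
    norm_cast
  exact (smul_eq_zero_iff_right (two_ne_zero)).mp h2

/-- For `G` cyclic of order `8` there is a set `S` of pairs such that `F_S / ⟨R_S⟩` has an element of
order `2`, so that it is not free. -/
theorem result : ∃ S : Set (Sym2 (ZMod 8)),
    (∃ x : Q S, x ≠ 0 ∧ 2 • x = 0) ∧ ¬ Module.Free ℤ (Q S) := by
  have key : ∃ x : Q (T : Set (Sym2 (ZMod 8))), x ≠ 0 ∧ 2 • x = 0 := by
    let t : (T : Set (Sym2 (ZMod 8))) →₀ ℤ :=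
      e s(2, 2) (by decide) + e s(1, 6) (by decide) + e s(1, 7) (by decide)
        - e s(1, 2) (by decide) - e s(1, 3) (by decide) - e s(2, 6) (by decide)
    refine ⟨(QuotientAddGroup.mk t : Q (T : Set (Sym2 (ZMod 8)))), ?_, ?_⟩
    · intro h
      have h1 : t ∈ RS (T : Set (Sym2 (ZMod 8))) := (QuotientAddGroup.eq_zero_iff t).mp h
      have h2 := F_RS h1
      simp only [t, e, map_sub, map_add, F_single, one_smul] at h2
      revert h2
      decide
    · have hr : ∀ (g h k : ZMod 8) (h1 : s(h, k) ∈ (T : Set (Sym2 (ZMod 8))))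
          (h2 : s(g, h + k) ∈ (T : Set (Sym2 (ZMod 8)))) (h3 : s(g, h) ∈ (T : Set (Sym2 (ZMod 8))))
          (h4 : s(g + h, k) ∈ (T : Set (Sym2 (ZMod 8)))),
          rel (T : Set (Sym2 (ZMod 8))) g h k h1 h2 h3 h4 ∈ RS (T : Set (Sym2 (ZMod 8))) :=
        fun g h k h1 h2 h3 h4 => AddSubgroup.subset_closure ⟨g, h, k, h1, h2, h3, h4, rfl⟩
      have h2t : 2 • t =
          rel _ 1 2 2 (by decide) (by decide) (by decide) (by decide)
          + rel _ 1 2 3 (by decide) (by decide) (by decide) (by decide)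
          + rel _ 1 3 3 (by decide) (by decide) (by decide) (by decide)
          + rel _ 1 3 4 (by decide) (by decide) (by decide) (by decide)
          + rel _ 2 6 4 (by decide) (by decide) (by decide) (by decide)
          + rel _ 4 1 7 (by decide) (by decide) (by decide) (by decide)
          + rel _ 4 6 6 (by decide) (by decide) (by decide) (by decide)
          + rel _ 5 1 6 (by decide) (by decide) (by decide) (by decide) := by
        have E : ∀ (a b : Sym2 (ZMod 8)) (ha : a ∈ (T : Set (Sym2 (ZMod 8))))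
            (hb : b ∈ (T : Set (Sym2 (ZMod 8)))), a = b →
            (single ⟨a, ha⟩ 1 : (T : Set (Sym2 (ZMod 8))) →₀ ℤ) = e b hb := by
          intro a b ha hb h
          subst h
          rfl
        simp only [rel, t]
        rw [E s(2, 2) s(2, 2) _ (by decide) (by decide), E s(1, 2 + 2) s(1, 4) _ (by decide) (by decide),
          E s(1, 2) s(1, 2) _ (by decide) (by decide), E s(1 + 2, 2) s(2, 3) _ (by decide) (by decide),
          E s(2, 3) s(2, 3) _ (by decide) (by decide), E s(1, 2 + 3) s(1, 5) _ (by decide) (by decide),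
          E s(1 + 2, 3) s(3, 3) _ (by decide) (by decide),
          E s(3, 3) s(3, 3) _ (by decide) (by decide), E s(1, 3 + 3) s(1, 6) _ (by decide) (by decide),
          E s(1, 3) s(1, 3) _ (by decide) (by decide), E s(1 + 3, 3) s(3, 4) _ (by decide) (by decide),
          E s(3, 4) s(3, 4) _ (by decide) (by decide), E s(1, 3 + 4) s(1, 7) _ (by decide) (by decide),
          E s(1 + 3, 4) s(4, 4) _ (by decide) (by decide),
          E s(6, 4) s(4, 6) _ (by decide) (by decide), E s(2, 6 + 4) s(2, 2) _ (by decide) (by decide),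
          E s(2, 6) s(2, 6) _ (by decide) (by decide), E s(2 + 6, 4) s(0, 4) _ (by decide) (by decide),
          E s(1, 7) s(1, 7) _ (by decide) (by decide), E s(4, 1 + 7) s(0, 4) _ (by decide) (by decide),
          E s(4, 1) s(1, 4) _ (by decide) (by decide), E s(4 + 1, 7) s(5, 7) _ (by decide) (by decide),
          E s(6, 6) s(6, 6) _ (by decide) (by decide), E s(4, 6 + 6) s(4, 4) _ (by decide) (by decide),
          E s(4, 6) s(4, 6) _ (by decide) (by decide), E s(4 + 6, 6) s(2, 6) _ (by decide) (by decide),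
          E s(1, 6) s(1, 6) _ (by decide) (by decide), E s(5, 1 + 6) s(5, 7) _ (by decide) (by decide),
          E s(5, 1) s(1, 5) _ (by decide) (by decide), E s(5 + 1, 6) s(6, 6) _ (by decide) (by decide)]
        abel
      have hmem : 2 • t ∈ RS (T : Set (Sym2 (ZMod 8))) := by
        rw [h2t]
        refine add_mem (add_mem (add_mem (add_mem (add_mem (add_mem (add_mem ?_ ?_) ?_) ?_) ?_) ?_)
          ?_) ?_ <;> exact hr _ _ _ _ _ _ _
      rw [← QuotientAddGroup.mk_nsmul]
      exact (QuotientAddGroup.eq_zero_iff _).mpr hmem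
  refine ⟨(T : Set (Sym2 (ZMod 8))), key, ?_⟩
  intro hfree
  obtain ⟨x, hx, h2x⟩ := key
  exact hx (no_two_torsion _ x h2x)

end Pool.Agent.Results.MP_7c4268_al.TorsionCyclicEight
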